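import Pool.Agent.MP_fcd29e_an.H11.CS

/-! Invariant cut-off functions. -/

set_option autoImplicit false

open Complex Set Filter Topology Metric Pool.Agent.MP_fcd29e_an.H81 Pool.Agent.MP_fcd29e_an.H11
open scoped ContDiff ComplexConjugate Manifold

namespace Pool.Agent.MP_fcd29e_an.H61

namespace CCU

variable {N : ℕ}

/-- the orthogonal projection onto the line through `z` -/
noncomputable def pj (z : E N) : Fin N → Fin N → ℂ :=
  fun i j => ((‖z‖ ^ 2)⁻¹ : ℝ) • (z i * conj (z j))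

theorem pj_smul {c : ℂ} (hc : c ≠ 0) (z : E N) : pj (c • z) = pj z := by
  funext i j
  have h1 : c * conj c = ((‖c‖ ^ 2 : ℝ) : ℂ) := by rw [mul_conj, normSq_eq_norm_sq]
  have h2 : ((‖c‖ ^ 2 : ℝ) : ℂ) ≠ 0 := by exact_mod_cast pow_ne_zero 2 (norm_ne_zero_iff.2 hc)
  simp only [pj, PiLp.smul_apply, smul_eq_mul, map_mul, norm_smul, mul_pow, mul_inv, real_smul,
    ofReal_mul, ofReal_inv]
  rw [show c * z i * (conj c * conj (z j)) = c * conj c * (z i * conj (z j)) by ring, h1]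
  field_simp

theorem pj_smooth {z : E N} (hz : z ≠ 0) : ContDiffAt ℝ ∞ (pj (N := N)) z := by
  refine contDiffAt_pi.2 fun i => contDiffAt_pi.2 fun j => ?_
  have hc : ∀ k : Fin N, ContDiff ℝ ∞ fun z : E N => z k := fun k =>
    ((EuclideanSpace.proj k : E N →L[ℂ] ℂ).restrictScalars ℝ).contDiff
  have h1 : ContDiffAt ℝ ∞ (fun z : E N => (‖z‖ ^ 2)⁻¹) z :=
    (contDiff_norm_sq ℂ).contDiffAt.inv (pow_ne_zero 2 (norm_ne_zero_iff.2 hz))
  exact h1.smul ((hc i).mul (conjCLE.contDiff.comp (hc j))).contDiffAt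

theorem pj_inj {z w : E N} (hz : z ≠ 0) (hw : w ≠ 0) (h : pj z = pj w) :
    ∃ c : ℂ, c ≠ 0 ∧ c • z = w := by
  obtain ⟨j, hj⟩ : ∃ j, w j ≠ 0 := by
    by_contra hn
    push Not at hn
    exact hw (by ext j; simp [hn j])
  have h1 : ((‖z‖ ^ 2 : ℝ) : ℂ) ≠ 0 := by exact_mod_cast pow_ne_zero 2 (norm_ne_zero_iff.2 hz)
  have h2 : ((‖w‖ ^ 2 : ℝ) : ℂ) ≠ 0 := by exact_mod_cast pow_ne_zero 2 (norm_ne_zero_iff.2 hw)
  have h3 : conj (w j) ≠ 0 := (map_ne_zero _).2 hj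
  have h4 : (((‖w‖ ^ 2 : ℝ) : ℂ) * conj (z j) / (((‖z‖ ^ 2 : ℝ) : ℂ) * conj (w j))) • z = w := by
    ext i
    have := congrFun (congrFun h i) j
    simp only [pj, real_smul, ofReal_inv] at this
    rw [PiLp.smul_apply, smul_eq_mul]
    field_simp at this ⊢
    linear_combination this
  refine ⟨_, fun h0 => hw ?_, h4⟩
  rw [← h4, h0, zero_smul]

theorem pj_unit {z : E N} (hz : z ≠ 0) :
    ∃ c : ℂ, c ≠ 0 ∧ c • z ∈ sphere (0 : E N) 1 := by
  have h := norm_ne_zero_iff.2 hz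
  refine ⟨(‖z‖⁻¹ : ℝ), by exact_mod_cast inv_ne_zero h, ?_⟩
  rw [mem_sphere_zero_iff_norm, norm_smul, norm_real, norm_inv, norm_norm, inv_mul_cancel₀ h]

theorem ne_of_sphere {z : E N} (hz : z ∈ sphere (0 : E N) 1) : z ≠ 0 := by
  rintro rfl
  simp at hz

theorem closed_image {S : Set (E N)} (hS : IsClosed S) :
    IsClosed (pj '' (sphere (0 : E N) 1 ∩ S)) :=
  (((isCompact_sphere _ _).inter_right hS).image_of_continuousOn fun _ hz =>
    (pj_smooth (ne_of_sphere hz.1)).continuousAt.continuousWithinAt).isClosed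

end CCU

open CCU in
theorem scu : SCU := by
  intro N K U hK hc hU hKU
  have hB : IsClosed {z : E N | ∀ c : ℂ, c ≠ 0 → c • z ∉ U} := by
    simp only [ofPred_forall]
    exact isClosed_iInter fun c => isClosed_iInter fun _ =>
      hU.isClosed_compl.preimage (continuous_const_smul c)
  have hd : Disjoint (pj '' (sphere (0 : E N) 1 ∩ (K ∪ {0})))
      (pj '' (sphere (0 : E N) 1 ∩ {z : E N | ∀ c : ℂ, c ≠ 0 → c • z ∉ U})) := by
    rw [Set.disjoint_left]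
    rintro _ ⟨k, ⟨hk1, hk⟩, rfl⟩ ⟨b, ⟨hb1, hb⟩, h⟩
    obtain ⟨c, hc0, h1⟩ := pj_inj (ne_of_sphere hb1) (ne_of_sphere hk1) h
    exact hb c hc0 (h1 ▸ hKU (hk.resolve_right (ne_of_sphere hk1)))
  obtain ⟨f, h0, h1, h2⟩ := exists_contMDiffMap_zero_one_nhds_of_isClosed (n := ⊤)
    𝓘(ℝ, Fin N → Fin N → ℂ) (closed_image hc) (closed_image hB) hd
  have hf : ContDiff ℝ ∞ f := f.contMDiff.contDiff
  refine ⟨fun z => f (pj z), fun z hz =>
    (hf.contDiffAt.comp z (pj_smooth hz)).contDiffWithinAt, fun c hc0 z => by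
      simp only [pj_smul hc0], fun z => h2 _, fun z hz => ?_, fun z hz h => ?_⟩
  · have hz0 : z ≠ 0 := fun h => hK.1 (h ▸ hz)
    obtain ⟨c, hc0, h3⟩ := pj_unit hz0
    refine (pj_smooth hz0).continuousAt.eventually (p := fun y => f y = 0)
      (h0.filter_mono (nhds_le_nhdsSet ?_))
    exact ⟨c • z, ⟨h3, Or.inl (hK.2 c hc0 z hz)⟩, pj_smul hc0 z⟩
  · obtain ⟨c, hc0, h3⟩ := pj_unit hz
    refine h1.self_of_nhdsSet _ ⟨c • z, ⟨h3, fun d hd0 => ?_⟩, pj_smul hc0 z⟩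
    rw [smul_smul]
    exact h _ (mul_ne_zero hd0 hc0)

end Pool.Agent.MP_fcd29e_an.H61
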