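import Pool.Agent.MP_fcd29e_an.H81.Spec

/-! The operators `Tk` are bounded in `L²`. -/

set_option autoImplicit false

open Pool.Agent.MP_fcd29e_an.H81 MeasureTheory Complex Set Filter Topology Metric
open scoped ContDiff ComplexConjugate ENNReal NNReal

namespace Pool.Agent.MP_fcd29e_an.H61

variable {N : ℕ}

/-- The kernel of `Tk`. -/
noncomputable def kr (ρ : E N → ℝ) (A : ℝ) (d : ℕ) (Φ : E N → ℂ) (x y : E N) : ℂ :=
  Φ ((‖y‖ * ρ y / A)⁻¹ • (x - y)) / ((‖y‖ * ρ y / A) ^ d : ℝ)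

theorem kr_le {ρ : E N → ℝ} {A C : ℝ} {d : ℕ} {Φ : E N → ℂ}
    (hC : ∀ y, ‖Φ y‖ ≤ C / (1 + ‖y‖) ^ d) (hA : 0 < A) (x : E N) {y : E N} (hy : y ∈ Op ρ) :
    ‖kr ρ A d Φ x y‖ ≤ C / (‖y‖ * ρ y / A + ‖x - y‖) ^ d := by
  have hs : 0 < ‖y‖ * ρ y / A := div_pos (mul_pos (norm_pos_iff.2 hy.1) hy.2) hA
  unfold kr
  generalize ‖y‖ * ρ y / A = s at hs ⊢
  rw [norm_div, Complex.norm_real, Real.norm_of_nonneg (by positivity)]
  refine (div_le_div_of_nonneg_right (hC _) (by positivity)).trans (le_of_eq ?_)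
  rw [norm_smul, Real.norm_of_nonneg (by positivity), div_div, ← mul_pow]
  congr 2
  field_simp

theorem near_le {s r t c M : ℝ} {n k d : ℕ} (hr : 0 < r) (ht : 0 ≤ t) (hc : 0 < c) (hc1 : c ≤ 1)
    (hs : c * r ≤ s) (hM : t + r ≤ M) (hd : d ≤ n + k) :
    r ^ k / (s + t) ^ d ≤ M ^ (n + k - d) / c ^ d * ((t + r) ^ n)⁻¹ := by
  have hm : 0 < t + r := by positivity
  have h1 : c * (t + r) ≤ s + t := by nlinarith
  have h2 : r ^ k / (s + t) ^ d ≤ (t + r) ^ k / (c * (t + r)) ^ d :=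
    div_le_div₀ (by positivity) (pow_le_pow_left₀ hr.le (by linarith) _) (by positivity)
      (pow_le_pow_left₀ (by positivity) h1 _)
  refine h2.trans ?_
  have h3 : (t + r) ^ k / (c * (t + r)) ^ d =
      (t + r) ^ (n + k - d) / c ^ d * ((t + r) ^ n)⁻¹ := by
    have h4 : (t + r) ^ (n + k - d) * (t + r) ^ d = (t + r) ^ n * (t + r) ^ k := by
      rw [← pow_add, ← pow_add, Nat.sub_add_cancel hd]
    rw [mul_pow]
    field_simp
    linear_combination -h4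
  rw [h3]
  gcongr

theorem far_le {a u c : ℝ} {n d : ℕ} (hu : 0 ≤ u) (hc : 0 < c) (ha : c * (1 + u) ≤ a)
    (hd : n ≤ d) : 1 / a ^ d ≤ 1 / c ^ d * (1 / (1 + u) ^ n) := by
  rw [one_div_mul_one_div]
  refine one_div_le_one_div_of_le (by positivity) ?_
  calc c ^ d * (1 + u) ^ n ≤ c ^ d * (1 + u) ^ d :=
        mul_le_mul_of_nonneg_left (pow_le_pow_right₀ (by linarith) hd) (by positivity)
    _ = (c * (1 + u)) ^ d := (mul_pow _ _ _).symm
    _ ≤ a ^ d := pow_le_pow_left₀ (by positivity) ha _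

theorem shell {K : Set (E N)} (hK : IsCompact K) (h0 : (0 : E N) ∉ K) :
    ∃ r R : ℝ, 0 < r ∧ 0 < R ∧ ∀ x ∈ K, r ≤ ‖x‖ ∧ ‖x‖ ≤ R := by
  obtain ⟨r, hr, h⟩ := Metric.isOpen_iff.1 hK.isClosed.isOpen_compl 0 h0
  obtain ⟨R, hR, h'⟩ := hK.isBounded.exists_pos_norm_le
  refine ⟨r, R, hr, hR, fun x hx => ⟨?_, h' x hx⟩⟩
  by_contra hc
  exact h (mem_ball_zero_iff.2 (not_le.1 hc)) hx

theorem key (L : Lv0) (h : StmtSCH) {ρ : E N → ℝ} (hρ : Dom ρ) {A : ℝ} (hA : 0 < A) {k d : ℕ}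
    {Φ G : E N → ℂ} (hΦ : Sym d Φ) (hd1 : 2 * N - 1 ≤ d) (hd2 : d ≤ 2 * N + k) (hG : WL ρ k G)
    (hD : DI G) {K : Set (E N)} (hK : IsCompact K) (h0 : (0 : E N) ∉ K) :
    ∫⁻ x in K, (∫⁻ y in Op ρ, ‖kr ρ A d Φ x y * G y‖ₑ) ^ 2 < ⊤ := by
  have hN : 1 ≤ N := by
    obtain ⟨z, hz, -⟩ := hρ.proper
    rcases Nat.eq_zero_or_pos N with rfl | hN
    · exact absurd (Subsingleton.elim z 0) hz
    · exact hN
  obtain ⟨C, hC⟩ := ((L.bm1 N hN).2.2.2 d Φ hΦ).2
  have hC0 : 0 ≤ C := by simpa using (norm_nonneg _).trans (hC 0)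
  obtain ⟨-, hO, -, -, hm, ⟨B, hB⟩, -⟩ := L.c1 N ρ hρ
  obtain ⟨r, R, hr, hR, hKr⟩ := shell hK h0
  set K1 : Set (E N) := {y | r / 2 ≤ ‖y‖ ∧ ‖y‖ ≤ 2 * R} with hK1
  have hK1c : IsCompact K1 := by
    refine (isCompact_closedBall (0 : E N) (2 * R)).of_isClosed_subset ?_
      fun y hy => mem_closedBall_zero_iff.2 hy.2
    exact (isClosed_le continuous_const continuous_norm).inter
      (isClosed_le continuous_norm continuous_const)
  have h01 : (0 : E N) ∉ K1 := fun hy => by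
    have := hy.1
    rw [norm_zero] at this
    linarith
  have hKK : K ⊆ K1 := fun x hx => ⟨by linarith [(hKr x hx).1], by linarith [(hKr x hx).2]⟩
  obtain ⟨C', hC'⟩ := h N ρ hρ K1 hK1c h01
  have hg := hG.2.2 K1 hK1c h01
  have hS := hC' (fun y => ‖G y / (ρ y : ℂ) ^ k‖ₑ) hg.1.enorm
  have hfin : ∫⁻ y in Op ρ ∩ K1, ‖G y / (ρ y : ℂ) ^ k‖ₑ ^ 2 < ⊤ := by
    have := (eLpNorm_lt_top_iff_lintegral_rpow_enorm_lt_top two_ne_zero ENNReal.ofNat_ne_top).1 hg.2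
    simpa using this
  set c : ℝ := min (r / 2 / A) 1 with hc
  have hc0 : 0 < c := lt_min (by positivity) one_pos
  set C1 : ℝ := C * ((3 * R + B) ^ (2 * N + k - d) / c ^ d) with hC1
  set e : ℝ := min (r / 2 / (1 + r / 2)) (R / (2 * R + 1)) with he
  have he0 : 0 < e := lt_min (by positivity) (by positivity)
  set C2 : ℝ := C * (1 / e ^ d) with hC2
  have hB0 : 0 ≤ B := (abs_nonneg _).trans (hB 0)
  have near : ∀ x ∈ K, ∀ y ∈ Op ρ ∩ K1, ‖kr ρ A d Φ x y * G y‖ₑ ≤ ENNReal.ofReal C1 *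
      (ENNReal.ofReal ((‖x - y‖ + ρ y) ^ (2 * N))⁻¹ * ‖G y / (ρ y : ℂ) ^ k‖ₑ) := by
    intro x hx y hy
    have hy0 : 0 < ρ y := hy.1.2
    rw [← ofReal_norm, ← ofReal_norm, ← ENNReal.ofReal_mul (by positivity),
      ← ENNReal.ofReal_mul (by positivity)]
    refine ENNReal.ofReal_le_ofReal ?_
    have h1 : c * ρ y ≤ ‖y‖ * ρ y / A := by
      rw [mul_div_right_comm]
      exact mul_le_mul_of_nonneg_right
        ((min_le_left _ _).trans (div_le_div_of_nonneg_right hy.2.1 hA.le)) hy0.le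
    have h2 : ‖x - y‖ + ρ y ≤ 3 * R + B := by
      linarith [norm_sub_le x y, (hKr x hx).2, hy.2.2, le_abs_self (ρ y), hB y]
    have h3 := near_le hy0 (norm_nonneg (x - y)) hc0 (min_le_right _ _) h1 h2 hd2
    have h4 : ‖G y‖ = ρ y ^ k * ‖G y / (ρ y : ℂ) ^ k‖ := by
      rw [norm_div, norm_pow, Complex.norm_real, Real.norm_of_nonneg hy0.le]
      field_simp
    calc ‖kr ρ A d Φ x y * G y‖ ≤ C / (‖y‖ * ρ y / A + ‖x - y‖) ^ d * ‖G y‖ := by
          rw [norm_mul]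
          exact mul_le_mul_of_nonneg_right (kr_le hC hA x hy.1) (norm_nonneg _)
      _ = C * (ρ y ^ k / (‖y‖ * ρ y / A + ‖x - y‖) ^ d) * ‖G y / (ρ y : ℂ) ^ k‖ := by
          conv_lhs => rw [h4]
          ring
      _ ≤ C * ((3 * R + B) ^ (2 * N + k - d) / c ^ d * ((‖x - y‖ + ρ y) ^ (2 * N))⁻¹) *
            ‖G y / (ρ y : ℂ) ^ k‖ := by gcongr
      _ = _ := by rw [hC1]; ring
  have far : ∀ x ∈ K, ∀ y ∈ Op ρ \ K1, ‖kr ρ A d Φ x y * G y‖ₑ ≤ ENNReal.ofReal C2 *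
      ‖G y / ((1 + ‖y‖) ^ (2 * N - 1) : ℝ)‖ₑ := by
    intro x hx y hy
    have hy0 : 0 < ρ y := hy.1.2
    rw [← ofReal_norm, ← ofReal_norm, ← ENNReal.ofReal_mul (by positivity)]
    refine ENNReal.ofReal_le_ofReal ?_
    have h1 : e * (1 + ‖y‖) ≤ ‖x - y‖ := by
      by_cases h2 : r / 2 ≤ ‖y‖
      · have h3 : 2 * R < ‖y‖ := not_le.1 fun h3 => hy.2 ⟨h2, h3⟩
        have h4 : ‖y‖ - ‖x‖ ≤ ‖x - y‖ := by rw [norm_sub_rev]; exact norm_sub_norm_le y x
        have h5 : e * (1 + ‖y‖) ≤ R / (2 * R + 1) * (1 + ‖y‖) :=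
          mul_le_mul_of_nonneg_right (min_le_right _ _) (by positivity)
        have h6 : R / (2 * R + 1) * (1 + ‖y‖) ≤ ‖y‖ / 2 := by
          rw [div_mul_eq_mul_div, div_le_div_iff₀ (by positivity) (by positivity)]
          nlinarith
        linarith [(hKr x hx).2]
      · have h4 : ‖x‖ - ‖y‖ ≤ ‖x - y‖ := norm_sub_norm_le x y
        have h5 : e * (1 + ‖y‖) ≤ r / 2 / (1 + r / 2) * (1 + r / 2) :=
          mul_le_mul (min_le_left _ _) (by linarith) (by positivity) (by positivity)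
        rw [div_mul_cancel₀ _ (by positivity)] at h5
        linarith [(hKr x hx).1]
    have h2 : e * (1 + ‖y‖) ≤ ‖y‖ * ρ y / A + ‖x - y‖ :=
      h1.trans (le_add_of_nonneg_left (by positivity))
    have h3 := far_le (norm_nonneg y) he0 h2 hd1
    calc ‖kr ρ A d Φ x y * G y‖ ≤ C / (‖y‖ * ρ y / A + ‖x - y‖) ^ d * ‖G y‖ := by
          rw [norm_mul]
          exact mul_le_mul_of_nonneg_right (kr_le hC hA x hy.1) (norm_nonneg _)
      _ = C * (1 / (‖y‖ * ρ y / A + ‖x - y‖) ^ d) * ‖G y‖ := by ring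
      _ ≤ C * (1 / e ^ d * (1 / (1 + ‖y‖) ^ (2 * N - 1))) * ‖G y‖ := by gcongr
      _ = _ := by
          rw [hC2, norm_div, Complex.norm_real, Real.norm_of_nonneg (by positivity)]
          ring
  set D : ℝ≥0∞ := ∫⁻ y, ‖G y / ((1 + ‖y‖) ^ (2 * N - 1) : ℝ)‖ₑ with hDd
  have hD' : D < ⊤ := hD.2
  set S : E N → ℝ≥0∞ := fun x => ∫⁻ y in Op ρ ∩ K1,
    ENNReal.ofReal ((‖x - y‖ + ρ y) ^ (2 * N))⁻¹ * ‖G y / (ρ y : ℂ) ^ k‖ₑ with hSd
  have hF : ∀ x ∈ K, (∫⁻ y in Op ρ, ‖kr ρ A d Φ x y * G y‖ₑ) ^ 2 ≤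
      4 * ENNReal.ofReal C1 ^ 2 * S x ^ 2 + 4 * (ENNReal.ofReal C2 * D) ^ 2 := by
    intro x hx
    have h1 : ∫⁻ y in Op ρ, ‖kr ρ A d Φ x y * G y‖ₑ ≤
        ENNReal.ofReal C1 * S x + ENNReal.ofReal C2 * D := by
      rw [← lintegral_inter_add_sdiff _ _ hK1c.measurableSet]
      refine add_le_add ?_ ?_
      · rw [hSd, ← lintegral_const_mul' _ _ ENNReal.ofReal_ne_top]
        exact setLIntegral_mono' (hO.measurableSet.inter hK1c.measurableSet) (near x hx)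
      · rw [hDd, ← lintegral_const_mul' _ _ ENNReal.ofReal_ne_top]
        exact (setLIntegral_mono' (hO.measurableSet.diff hK1c.measurableSet) (far x hx)).trans
          (setLIntegral_le_lintegral _ _)
    refine (pow_le_pow_left' h1 2).trans ?_
    rw [mul_assoc, ← mul_pow]
    generalize ENNReal.ofReal C1 * S x = a
    generalize ENNReal.ofReal C2 * D = b
    rcases le_total a b with hab | hab
    · calc (a + b) ^ 2 ≤ (b + b) ^ 2 := by gcongr
        _ = 4 * b ^ 2 := by ring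
        _ ≤ _ := le_add_self
    · calc (a + b) ^ 2 ≤ (a + a) ^ 2 := by gcongr
        _ = 4 * a ^ 2 := by ring
        _ ≤ _ := le_self_add
  refine (setLIntegral_mono' hK.measurableSet hF).trans_lt ?_
  have hne : 4 * ENNReal.ofReal C1 ^ 2 ≠ ⊤ := by finiteness
  rw [lintegral_add_right _ measurable_const, lintegral_const_mul' _ _ hne, setLIntegral_const]
  have h1 : ∫⁻ x in K, S x ^ 2 < ⊤ :=
    ((lintegral_mono_set hKK).trans hS).trans_lt (ENNReal.mul_lt_top ENNReal.coe_lt_top hfin)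
  have h2 := hK.measure_lt_top (μ := volume)
  have h3 := hD'.ne
  refine ENNReal.add_lt_top.2 ⟨ENNReal.mul_lt_top hne.lt_top h1, ENNReal.mul_lt_top ?_ h2⟩
  finiteness

theorem tk0 (L : Lv0) (h : StmtSCH) : StmtTK0 := by
  intro N ρ hρ A hA k d Φ G hΦ hd1 hd2 hG hD
  have hm : Measurable ρ := (L.c1 N ρ hρ).2.2.2.2.1
  have hΦm : Measurable Φ := hΦ.1.continuous.measurable
  have hk : Measurable fun p : E N × E N => kr ρ A d Φ p.1 p.2 := by
    unfold kr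
    fun_prop
  have hj : AEStronglyMeasurable (fun p : E N × E N => kr ρ A d Φ p.1 p.2 * G p.2)
      (volume.prod (volume.restrict (Op ρ))) :=
    hk.aestronglyMeasurable.mul hG.1.restrict.comp_snd
  refine ⟨fun K hK h0 => ⟨hj.integral_prod_right'.restrict, ?_⟩, fun ψ hψ => ?_⟩
  · rw [eLpNorm_lt_top_iff_lintegral_rpow_enorm_lt_top two_ne_zero ENNReal.ofNat_ne_top]
    refine lt_of_le_of_lt ?_ (key L h hρ hA hΦ hd1 hd2 hG hD hK h0)
    refine (lintegral_mono_set inter_subset_right).trans (lintegral_mono fun x => ?_)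
    simp only [ENNReal.toReal_ofNat, ENNReal.rpow_ofNat]
    exact pow_le_pow_left' (enorm_integral_le_lintegral_enorm _) 2
  · have hψc : Continuous ψ := hψ.1.continuous
    have hj' : AEStronglyMeasurable (fun p : E N × E N => kr ρ A d Φ p.1 p.2 * G p.2 * ψ p.1)
        (volume.prod (volume.restrict (Op ρ))) :=
      hj.mul (hψc.comp continuous_fst).aestronglyMeasurable
    refine ⟨hj', ?_⟩
    have hK : IsCompact (tsupport ψ) := hψ.2.1
    have h0 : (0 : E N) ∉ tsupport ψ := fun h0 => hψ.2.2 h0 rfl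
    obtain ⟨M, hM⟩ := hψc.bounded_above_of_compact_support hψ.2.1
    change ∫⁻ p : E N × E N, ‖kr ρ A d Φ p.1 p.2 * G p.2 * ψ p.1‖ₑ
      ∂(volume.prod (volume.restrict (Op ρ))) < ⊤
    rw [lintegral_prod _ hj'.enorm]
    have h1 : ∀ x, ∫⁻ y in Op ρ, ‖kr ρ A d Φ x y * G y * ψ x‖ₑ ≤ (tsupport ψ).indicator
        (fun x => ENNReal.ofReal M * ((∫⁻ y in Op ρ, ‖kr ρ A d Φ x y * G y‖ₑ) ^ 2 + 1)) x := by
      intro x
      by_cases hx : x ∈ tsupport ψ
      · rw [indicator_of_mem hx]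
        simp only [enorm_mul (_ * _)]
        rw [lintegral_mul_const' _ _ enorm_ne_top, mul_comm]
        refine mul_le_mul' ?_ ?_
        · rw [← ofReal_norm]
          exact ENNReal.ofReal_le_ofReal (hM x)
        · generalize ∫⁻ y in Op ρ, ‖kr ρ A d Φ x y * G y‖ₑ = a
          rcases le_total a 1 with ha | ha
          · exact ha.trans le_add_self
          · exact (le_self_pow ha two_ne_zero).trans le_self_add
      · simp [image_eq_zero_of_notMem_tsupport hx]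
    refine (lintegral_mono h1).trans_lt ?_
    rw [lintegral_indicator hK.measurableSet, lintegral_const_mul' _ _ ENNReal.ofReal_ne_top,
      lintegral_add_right _ measurable_const, setLIntegral_const, one_mul]
    exact ENNReal.mul_lt_top ENNReal.ofReal_lt_top
      (ENNReal.add_lt_top.2 ⟨key L h hρ hA hΦ hd1 hd2 hG hD hK h0, hK.measure_lt_top⟩)

end Pool.Agent.MP_fcd29e_an.H61
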