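import Pool.Agent.MP_fcd29e_an.H81.Spec2

/-! The formal extension of `∂ρ`. -/

set_option autoImplicit false

open Pool.Agent.MP_fcd29e_an.H81 MeasureTheory Complex Set Filter Topology Metric
open scoped ContDiff ComplexConjugate ENNReal NNReal

namespace Pool.Agent.MP_fcd29e_an.H61

variable {N : ℕ} {ρ : E N → ℝ}

theorem rho_smooth (hρ : Dom ρ) {z : E N} (hz : z ≠ 0) : ContDiffAt ℝ ∞ (cx ρ) z :=
  contDiffAt_cx (hρ.smooth.contDiffAt (isOpen_compl_singleton.mem_nhds hz))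

theorem Lb_add (l : Fin N → E N → ℂ) {f g : E N → ℂ} {z : E N} (hf : DifferentiableAt ℝ f z)
    (hg : DifferentiableAt ℝ g z) : Lb l (fun w => f w + g w) z = Lb l f z + Lb l g z := by
  simp only [Lb, dzb_add _ hf hg, mul_add, Finset.sum_add_distrib]

theorem Lb_mul (l : Fin N → E N → ℂ) {f g : E N → ℂ} {z : E N} (hf : DifferentiableAt ℝ f z)
    (hg : DifferentiableAt ℝ g z) :
    Lb l (fun w => f w * g w) z = Lb l f z * g z + f z * Lb l g z := by
  simp only [Lb, dzb_mul _ hf hg, mul_add, Finset.sum_add_distrib, Finset.sum_mul, Finset.mul_sum]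
  congr 1 <;> exact Finset.sum_congr rfl fun j _ => by ring

theorem Lb_hol (l : Fin N → E N → ℂ) {f : E N → ℂ} {z : E N} {h : ℂ → ℂ} {h' : ℂ}
    (hf : DifferentiableAt ℝ f z) (hh : HasDerivAt h h' (f z)) :
    Lb l (fun w => h (f w)) z = h' * Lb l f z := by
  simp only [Lb, dzb_comp_hol _ hf hh, Finset.mul_sum]
  exact Finset.sum_congr rfl fun j _ => by ring

theorem Lb_rho (L : Lv0) (hρ : Dom ρ) {z : E N} (hz : z ∈ Reg ρ) : Lb (nn ρ) (cx ρ) z = 1 := by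
  have h0 : 0 < an ρ z := (((L.pf N).2.2.2 ρ hρ).2.2.2.1 z hz).1
  have h1 : ((an ρ z : ℝ) : ℂ) ≠ 0 := by exact_mod_cast h0.ne'
  have h2 : ((an ρ z : ℝ) : ℂ) = ∑ j, dz j (cx ρ) z * conj (dz j (cx ρ) z) := by
    simp only [an, mul_conj, normSq_eq_norm_sq]
    push_cast
    rfl
  simp only [Lb, nn, dzb_cx, map_div₀, conj_conj, conj_ofReal, div_mul_eq_mul_div]
  rw [← Finset.sum_div, ← h2, div_self h1]

theorem Lb_smooth (L : Lv0) (hρ : Dom ρ) {f : E N → ℂ} {z : E N} (hz : z ∈ Reg ρ)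
    (hf : ContDiffAt ℝ ∞ f z) : ContDiffAt ℝ ∞ (Lb (nn ρ) f) z :=
  ContDiffAt.sum fun j _ =>
    (contDiffAt_conj ((((L.pf N).2.2.2 ρ hρ).2.2.2.1 z hz).2.2.2.1 j)).mul (contDiffAt_dzb j hf)

theorem Lb_hom (L : Lv0) (hρ : Dom ρ) {f : E N → ℂ} (hf : Hom (Reg ρ) (-1) 0 f) :
    Hom (Reg ρ) (-1) 0 (Lb (nn ρ) f) := by
  obtain ⟨hO, hC, h1, -⟩ := (L.pf N).2.2.2 ρ hρ
  intro c hc z hz
  obtain ⟨h2, h3, -⟩ := (h1 z hz.1).2.2.2.1 c hc
  have h4 := fun j => (((L.pf N).1 _ _ _ _ hO hC hf).1 j).2 c hc z hz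
  have h5 : ((‖c‖ : ℝ) : ℂ) ^ 2 = c * conj c := by
    rw [mul_conj, normSq_eq_norm_sq]; push_cast; rfl
  have hc' : conj c ≠ 0 := by simpa using hc
  simp only [Lb, nn, h2, h3, h4, map_div₀, conj_conj, conj_ofReal, Finset.mul_sum]
  refine Finset.sum_congr rfl fun j _ => ?_
  push_cast
  rw [h5]
  simp only [zpow_neg, zpow_one, zpow_zero]
  field_simp

theorem ext_step (L : Lv0) (hρ : Dom ρ) (j : Fin N) (T : ℕ) : ∃ g R : E N → ℂ,
    (∀ z ∈ Reg ρ, ContDiffAt ℝ ∞ g z) ∧ (∀ z ∈ Reg ρ, ContDiffAt ℝ ∞ R z) ∧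
    Hom (Reg ρ) (-1) 0 g ∧ Hom (Reg ρ) (-1) 0 R ∧
    ∀ z ∈ Reg ρ, Lb (nn ρ) (fun w => dz j (cx ρ) w + cx ρ w * g w) z = (ρ z : ℂ) ^ T * R z := by
  induction T with
  | zero =>
    refine ⟨fun _ => 0, Lb (nn ρ) (dz j (cx ρ)), fun z _ => contDiffAt_const,
      fun z hz => Lb_smooth L hρ hz (contDiffAt_dz j (rho_smooth hρ hz.1)),
      fun c _ z _ => by simp, Lb_hom L hρ fun c hc z hz => ?_, fun z _ => by simp⟩
    rw [((((L.pf N).2.2.2 ρ hρ).2.2.1 z hz.1).2.2.2.1 c hc).1 j]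
    simp
  | succ T ih =>
    obtain ⟨g, R, hg, hR, Hg, HR, h⟩ := ih
    have hT : ((T : ℂ) + 1) ≠ 0 := by exact_mod_cast T.succ_ne_zero
    refine ⟨fun w => g w - cx ρ w ^ T / (T + 1) * R w, fun w => -Lb (nn ρ) R w / (T + 1),
      fun z hz => (hg z hz).sub ((((rho_smooth hρ hz.1).pow T).div_const _).mul (hR z hz)),
      fun z hz => (Lb_smooth L hρ hz (hR z hz)).neg.div_const _, fun c hc z hz => ?_,
      fun c hc z hz => ?_, fun z hz => ?_⟩
    · simp only [cx, Hg c hc z hz, HR c hc z hz, hρ.inv c hc z]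
      ring
    · simp only [Lb_hom L hρ HR c hc z hz]
      ring
    · have hr := rho_smooth hρ hz.1
      have e : (fun w => dz j (cx ρ) w + cx ρ w * (g w - cx ρ w ^ T / (T + 1) * R w)) =
          fun w => (dz j (cx ρ) w + cx ρ w * g w) + -cx ρ w ^ (T + 1) / (T + 1) * R w := by
        funext w; ring
      have hd : HasDerivAt (fun s : ℂ => -s ^ (T + 1) / (T + 1)) (-(cx ρ z) ^ T) (cx ρ z) := by
        refine ((hasDerivAt_pow (T + 1) (cx ρ z)).fun_neg.div_const ((T : ℂ) + 1)).congr_deriv ?_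
        rw [Nat.add_sub_cancel]
        push_cast
        field_simp
      have d1 := ContDiffAt.da ((contDiffAt_dz j hr).add (hr.mul (hg z hz)))
      have d2 := ContDiffAt.da ((hr.pow (T + 1)).neg.div_const ((T : ℂ) + 1))
      have d3 := ContDiffAt.da (hR z hz)
      rw [e, Lb_add _ d1 (d2.fun_mul d3), h z hz, Lb_mul _ d2 d3,
        Lb_hol _ (ContDiffAt.da hr) hd, Lb_rho L hρ hz]
      simp only [cx]
      ring

theorem tk1 (L : Lv0) : StmtTK1 := by
  intro N ρ hρ T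
  choose g R hg hR Hg HR h using fun j => ext_step L hρ j T
  refine ⟨fun j w => dz j (cx ρ) w + cx ρ w * g j w, R, fun j => ⟨fun z hz => ?_,
    fun z hz => (hR j z hz).contDiffWithinAt, fun c hc z hz => ?_, h j, fun z hz h0 => ⟨?_, ?_⟩⟩⟩
  · have hr := rho_smooth hρ hz.1
    exact ((contDiffAt_dz j hr).add (hr.mul (hg j z hz))).contDiffWithinAt
  · simp only [cx, Hg j c hc z hz, hρ.inv c hc z,
      ((((L.pf N).2.2.2 ρ hρ).2.2.1 z hz.1).2.2.2.1 c hc).1 j]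
    simp only [zpow_neg, zpow_one, zpow_zero]
    ring
  · simp [h0]
  · intro w hw
    have hr := rho_smooth hρ hz.1
    have d1 := ContDiffAt.da (contDiffAt_dz j hr)
    have d2 := ContDiffAt.da hr
    have d3 := ContDiffAt.da (hg j z hz)
    have h1 : ∑ k, conj (w k) * conj (dz k (cx ρ) z) = 0 := by
      have := congrArg conj hw
      simpa only [av, map_sum, map_mul, map_zero, mul_comm] using this
    have h2 : ∀ k, conj (w k) * dzb k (fun y => dz j (cx ρ) y + cx ρ y * g j y) z =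
        conj (w k) * dz j (dzb k (cx ρ)) z + conj (w k) * conj (dz k (cx ρ) z) * g j z := by
      intro k
      rw [dzb_add k d1 (d2.fun_mul d3), dzb_mul k d2 d3, dz_dzb_comm j k hr, dzb_cx]
      simp only [cx, h0, ofReal_zero]
      ring
    simp only [h2, Finset.sum_add_distrib, ← Finset.sum_mul, h1, zero_mul, add_zero]

end Pool.Agent.MP_fcd29e_an.H61
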